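import Mathlib

/-! Project RW (MP_6b977f_mp): fourth moments of quantum ergodic Laplace eigenfunctions. Statements. -/
set_option autoImplicit false
open MeasureTheory Filter Topology Complex
open scoped ContDiff

namespace Pool.Agent.W745.RW

noncomputable section

variable {E : Type*} [NormedAddCommGroup E] [NormedSpace ℝ E]

/-- partial derivative in the `x` direction (plane = `ℂ`) -/
def dx (f : ℂ → E) (z : ℂ) : E := fderiv ℝ f z 1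
/-- partial derivative in the `y` direction -/
def dy (f : ℂ → E) (z : ℂ) : E := fderiv ℝ f z I
/-- the Laplacian -/
def lap (f : ℂ → E) (z : ℂ) : E := dx (dx f) z + dy (dy f) z

/-- test functions on `U` -/
def TF (U : Set ℂ) (φ : ℂ → ℝ) : Prop := ContDiff ℝ ∞ φ ∧ HasCompactSupport φ ∧ tsupport φ ⊆ U

/-- `h (∂x - i ∂y)` -/
def Dp (h : ℝ) (f : ℂ → ℂ) (z : ℂ) : ℂ := (h : ℂ) * (dx f z - I * dy f z)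
/-- `h (∂x + i ∂y)` -/
def Dm (h : ℝ) (f : ℂ → ℂ) (z : ℂ) : ℂ := (h : ℂ) * (dx f z + I * dy f z)

/-- `W h u k = (h(∂x - i∂y))^k u` for `k ≥ 0`, and `(-1)^k (h(∂x + i∂y))^{-k} u` for `k<0` -/
def W (h : ℝ) (u : ℂ → ℝ) : ℤ → ℂ → ℂ
  | Int.ofNat k => (Dp h)^[k] (fun z => (u z : ℂ))
  | Int.negSucc k => fun z => (-1) ^ (k + 1) * (Dm h)^[k + 1] (fun z => (u z : ℂ)) z

/-- one solution of `h² Δu + u = 0` on the open set `B` -/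
structure Sol (B : Set ℂ) (h : ℝ) (u : ℂ → ℝ) : Prop where
  hpos : 0 < h
  smooth : ContDiffOn ℝ ∞ u B
  eq : ∀ z ∈ B, h ^ 2 * lap u z + u z = 0

/-- a quantum ergodic sequence of solutions on the open set `B` -/
structure Sys (B : Set ℂ) (h : ℕ → ℝ) (u : ℕ → ℂ → ℝ) : Prop where
  sol : ∀ n, Sol B (h n) (u n)
  hlim : Tendsto h atTop (𝓝 0)
  qe : ∀ φ, TF B φ → ∀ k : ℕ, Tendsto (fun n => ∫ z, (φ z : ℂ) * ((u n z : ℂ) * W (h n) (u n) k z))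
    atTop (𝓝 (if k = 0 then ((∫ z, φ z : ℝ) : ℂ) else 0))

/-- locally bounded fourth moments of all the `W k` -/
def Bd (B : Set ℂ) (h : ℕ → ℝ) (u : ℕ → ℂ → ℝ) : Prop :=
  ∀ k : ℤ, ∀ K : Set ℂ, IsCompact K → K ⊆ B → ∃ C : ℝ, ∀ᶠ n in atTop,
    ∫ z in K, ‖W (h n) (u n) k z‖ ^ 4 ≤ C

def Null (s : ℕ → ℂ) : Prop := Tendsto s atTop (𝓝 0)

/-- four point moment -/
def MM (φ : ℂ → ℝ) (h : ℕ → ℝ) (u : ℕ → ℂ → ℝ) (a b c d : ℤ) (n : ℕ) : ℂ :=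
  ∫ z, (φ z : ℂ) * (W (h n) (u n) a z * W (h n) (u n) b z * W (h n) (u n) c z * W (h n) (u n) d z)

/-- two point constants -/
def CC (a b : ℤ) : ℂ := if a + b = 0 then (-1) ^ a.natAbs else 0

/-- RW-W: basic properties of `W` -/
def SW : Prop := ∀ (B : Set ℂ), IsOpen B → ∀ (h : ℝ) (u : ℂ → ℝ), Sol B h u →
  (∀ k : ℤ, ContDiffOn ℝ ∞ (W h u k) B) ∧
  (∀ k : ℤ, ∀ z ∈ B, Dp h (W h u k) z = W h u (k + 1) z) ∧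
  (∀ k : ℤ, ∀ z ∈ B, Dm h (W h u k) z = - W h u (k - 1) z) ∧
  (∀ k : ℤ, ∀ z ∈ B, (starRingEnd ℂ) (W h u k z) = (-1) ^ k.natAbs * W h u (-k) z)

/-- RW-L: Ladyzhenskaya -/
def SL : Prop := ∃ C : ℝ, ∀ f : ℂ → ℝ, ContDiff ℝ 1 f → HasCompactSupport f →
  ∫ z, f z ^ 4 ≤ C * (∫ z, f z ^ 2) * ∫ z, (dx f z ^ 2 + dy f z ^ 2)

/-- RW-E: energy identity -/
def SE : Prop := ∀ (B : Set ℂ), IsOpen B → ∀ (h : ℝ) (u : ℂ → ℝ), Sol B h u → ∀ ζ, TF B ζ →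
  h ^ 2 * ∫ z, (dx (fun w => ζ w * u w) z ^ 2 + dy (fun w => ζ w * u w) z ^ 2) =
    ∫ z, (h ^ 2 * (dx ζ z ^ 2 + dy ζ z ^ 2) + ζ z ^ 2) * u z ^ 2

/-- RW-G: local `L⁴` bound of the gradient on discs of radius `h` -/
def SG1 : Prop := ∃ C : ℝ, ∀ (h : ℝ) (u : ℂ → ℝ) (c : ℂ), Sol (Metric.ball c (4 * h)) h u →
  ∫ z in Metric.ball c h, (h ^ 2 * (dx u z ^ 2 + dy u z ^ 2)) ^ 2 ≤
    C * ∫ z in Metric.ball c (3 * h), u z ^ 4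

/-- RW-GG -/
def SG2 : Prop := ∃ C : ℝ, ∀ (U K K' : Set ℂ), IsOpen U → IsCompact K → IsCompact K' → K' ⊆ U →
  ∀ (h : ℝ) (u : ℂ → ℝ), Sol U h u → Metric.cthickening (5 * h) K ⊆ K' →
  ∫ z in K, (h ^ 2 * (dx u z ^ 2 + dy u z ^ 2)) ^ 2 ≤ C * ∫ z in K', u z ^ 4

/-- RW-B: bounds -/
def SBd : Prop := ∀ (B : Set ℂ), IsOpen B → ∀ (h : ℕ → ℝ) (u : ℕ → ℂ → ℝ), (∀ n, Sol B (h n) (u n)) →
  Tendsto h atTop (𝓝 0) →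
  (∀ K : Set ℂ, IsCompact K → K ⊆ B → ∃ C : ℝ, ∀ᶠ n in atTop, ∫ z in K, u n z ^ 4 ≤ C) → Bd B h u

/-- RW-ST: stream function on a ball -/
def SSt : Prop := ∀ (c : ℂ) (r : ℝ) (F1 F2 : ℂ → ℂ), ContDiffOn ℝ ∞ F1 (Metric.ball c r) →
  ContDiffOn ℝ ∞ F2 (Metric.ball c r) → (∀ z ∈ Metric.ball c r, dx F1 z + dy F2 z = 0) →
  ∃ χ : ℂ → ℂ, ContDiffOn ℝ ∞ χ (Metric.ball c r) ∧
    ∀ z ∈ Metric.ball c r, dy χ z = F1 z ∧ dx χ z = - F2 z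

/-- RW-RA: smoothing estimate -/
def SRa : Prop := ∀ (c : ℂ) (r : ℝ) (K : Set ℂ), IsCompact K → K ⊆ Metric.ball c r →
  ∃ K' : Set ℂ, IsCompact K' ∧ K' ⊆ Metric.ball c r ∧ ∀ ε : ℝ, 0 < ε → ∃ ρ : ℂ → ℝ,
    ContDiff ℝ ∞ ρ ∧ HasCompactSupport ρ ∧ (∀ z ∈ K, ∀ w ∈ tsupport ρ, z - w ∈ K') ∧
    ∀ χ : ℂ → ℂ, ContDiffOn ℝ ∞ χ (Metric.ball c r) →
      ∫ z in K, ‖χ z - ∫ w, (ρ w : ℂ) * χ (z - w)‖ ^ 2 ≤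
        ε * ∫ z in K', (‖dx χ z‖ ^ 2 + ‖dy χ z‖ ^ 2)

/-- RW-RE: a Rellich lemma on a ball -/
def SRe : Prop := ∀ (c : ℂ) (r : ℝ) (χ : ℕ → ℂ → ℂ), (∀ n, ContDiffOn ℝ ∞ (χ n) (Metric.ball c r)) →
  (∀ K : Set ℂ, IsCompact K → K ⊆ Metric.ball c r → ∃ C : ℝ, ∀ᶠ n in atTop,
    ∫ z in K, (‖dx (χ n) z‖ ^ 2 + ‖dy (χ n) z‖ ^ 2) ≤ C) →
  (∀ ψ, TF (Metric.ball c r) ψ → Null (fun n => ∫ z, (ψ z : ℂ) * dx (χ n) z) ∧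
    Null (fun n => ∫ z, (ψ z : ℂ) * dy (χ n) z)) →
  ∀ K : Set ℂ, IsCompact K → K ⊆ Metric.ball c r → ∀ δ : ℝ, 0 < δ →
    ∀ᶠ n in atTop, ∃ m : ℂ, ∫ z in K, ‖χ n z - m‖ ^ 2 ≤ δ

/-- RW-DC: div-curl lemma on a ball -/
def SDC : Prop := ∀ (c : ℂ) (r : ℝ) (E1 E2 F1 F2 : ℕ → ℂ → ℂ) (e1 e2 f1 f2 : ℂ),
  (∀ n, ContDiffOn ℝ ∞ (E1 n) (Metric.ball c r) ∧ ContDiffOn ℝ ∞ (E2 n) (Metric.ball c r) ∧
    ContDiffOn ℝ ∞ (F1 n) (Metric.ball c r) ∧ ContDiffOn ℝ ∞ (F2 n) (Metric.ball c r)) →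
  (∀ n, ∀ z ∈ Metric.ball c r, dx (E1 n) z + dy (E2 n) z = 0 ∧ dx (F1 n) z + dy (F2 n) z = 0) →
  (∀ K : Set ℂ, IsCompact K → K ⊆ Metric.ball c r → ∃ C : ℝ, ∀ᶠ n in atTop,
    ∫ z in K, (‖E1 n z‖ ^ 2 + ‖E2 n z‖ ^ 2 + ‖F1 n z‖ ^ 2 + ‖F2 n z‖ ^ 2) ≤ C) →
  (∀ ψ, TF (Metric.ball c r) ψ →
    Tendsto (fun n => ∫ z, (ψ z : ℂ) * E1 n z) atTop (𝓝 (e1 * (∫ z, ψ z : ℝ))) ∧
    Tendsto (fun n => ∫ z, (ψ z : ℂ) * E2 n z) atTop (𝓝 (e2 * (∫ z, ψ z : ℝ))) ∧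
    Tendsto (fun n => ∫ z, (ψ z : ℂ) * F1 n z) atTop (𝓝 (f1 * (∫ z, ψ z : ℝ))) ∧
    Tendsto (fun n => ∫ z, (ψ z : ℂ) * F2 n z) atTop (𝓝 (f2 * (∫ z, ψ z : ℝ)))) →
  ∀ φ, TF (Metric.ball c r) φ →
    Tendsto (fun n => ∫ z, (φ z : ℂ) * (E1 n z * F2 n z - E2 n z * F1 n z)) atTop
      (𝓝 ((e1 * f2 - e2 * f1) * (∫ z, φ z : ℝ)))

/-- RW-2: two point limits -/
def S2 : Prop := ∀ (B : Set ℂ), IsOpen B → ∀ h u, Sys B h u → Bd B h u → ∀ φ, TF B φ → ∀ a b : ℤ,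
  Tendsto (fun n => ∫ z, (φ z : ℂ) * (W (h n) (u n) a z * W (h n) (u n) b z)) atTop
    (𝓝 (CC a b * (∫ z, φ z : ℝ)))

/-- RW-T: translation relations -/
def ST : Prop := ∀ (B : Set ℂ), IsOpen B → ∀ h u, (∀ n, Sol B (h n) (u n)) → Tendsto h atTop (𝓝 0) →
  Bd B h u → ∀ φ, TF B φ → ∀ a b c d : ℤ,
  Null (fun n => MM φ h u (a+1) b c d n + MM φ h u a (b+1) c d n + MM φ h u a b (c+1) d n
    + MM φ h u a b c (d+1) n) ∧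
  Null (fun n => MM φ h u (a-1) b c d n + MM φ h u a (b-1) c d n + MM φ h u a b (c-1) d n
    + MM φ h u a b c (d-1) n)

/-- RW-X: the exact cross relation -/
def SX : Prop := ∀ (c₀ : ℂ) (r : ℝ) (h : ℕ → ℝ) (u : ℕ → ℂ → ℝ), Sys (Metric.ball c₀ r) h u →
  Bd (Metric.ball c₀ r) h u → ∀ φ, TF (Metric.ball c₀ r) φ → ∀ a b c d : ℤ,
  Tendsto (fun n =>
    (MM φ h u a (b+1) c (d-1) n - MM φ h u a (b+1) (c-1) d n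
      - MM φ h u (a+1) b c (d-1) n + MM φ h u (a+1) b (c-1) d n)
    - (MM φ h u a (b-1) c (d+1) n - MM φ h u a (b-1) (c+1) d n
      - MM φ h u (a-1) b c (d+1) n + MM φ h u (a-1) b (c+1) d n)) atTop
    (𝓝 (((CC a (b+1) - CC (a+1) b) * (CC c (d-1) - CC (c-1) d)
      - (CC a (b-1) - CC (a-1) b) * (CC c (d+1) - CC (c+1) d)) * (∫ z, φ z : ℝ)))

/-- RW-AL: the algebra -/
def SAl : Prop := ∀ D : ℤ → ℤ → ℤ → ℤ → ℕ → ℂ,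
  (∀ a b c d, D a b c d = D b a c d) → (∀ a b c d, D a b c d = D a c b d) →
  (∀ a b c d, D a b c d = D a b d c) →
  (∀ a b c d, Null (fun n => D (a+1) b c d n + D a (b+1) c d n + D a b (c+1) d n + D a b c (d+1) n)) →
  (∀ a b c d, Null (fun n => D (a-1) b c d n + D a (b-1) c d n + D a b (c-1) d n + D a b c (d-1) n)) →
  (∀ a b c d, Null (fun n => (D a (b+1) c (d-1) n - D a (b+1) (c-1) d n
      - D (a+1) b c (d-1) n + D (a+1) b (c-1) d n)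
    - (D a (b-1) c (d+1) n - D a (b-1) (c+1) d n
      - D (a-1) b c (d+1) n + D (a-1) b (c+1) d n))) →
  ∀ j k : ℤ, Null (fun n => D (2*j) (-(2*j)) (2*k) (-(2*k)) n - D 0 0 0 0 n)

/-- RW-M: the moments of `|W_{2j}|²` -/
def SMo : Prop := ∀ (c₀ : ℂ) (r : ℝ) (h : ℕ → ℝ) (u : ℕ → ℂ → ℝ), Sys (Metric.ball c₀ r) h u →
  Bd (Metric.ball c₀ r) h u → ∀ φ, TF (Metric.ball c₀ r) φ → ∀ j k : ℕ, 1 ≤ j → 1 ≤ k →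
  Tendsto (fun n => ∫ z, φ z * (‖W (h n) (u n) (2*j) z‖ ^ 2 * ‖W (h n) (u n) (2*k) z‖ ^ 2) -
    ∫ z, φ z * u n z ^ 4) atTop (𝓝 (if j = k then - ∫ z, φ z else - 2 * ∫ z, φ z))

/-- RW-F: the bound on a ball -/
def SF : Prop := ∀ (c₀ : ℂ) (r : ℝ) (h : ℕ → ℝ) (u : ℕ → ℂ → ℝ), Sys (Metric.ball c₀ r) h u →
  Bd (Metric.ball c₀ r) h u → ∀ φ, TF (Metric.ball c₀ r) φ → (∀ z, 0 ≤ φ z) → ∀ ε : ℝ, 0 < ε →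
  ∀ᶠ n in atTop, 3 * (∫ z, φ z) - ε ≤ ∫ z, φ z * u n z ^ 4

/-- the main theorem -/
def SMain : Prop := ∀ (Ω : Set ℂ), IsOpen Ω → ∀ (h : ℕ → ℝ) (u : ℕ → ℂ → ℝ), Sys Ω h u →
  3 * volume Ω ≤ liminf (fun n => ∫⁻ z in Ω, ENNReal.ofReal (u n z ^ 4)) atTop

end

end Pool.Agent.W745.RW
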