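import Pool.Agent.W745.RW.Alg2

/-!
Project RW, part AL, second form (the algebra by helper165).
-/

set_option autoImplicit false
open Filter Topology

namespace Pool.Agent.W745.RW.AlB

open Pool.Agent.W745.RW

/-- Scalar version of the relation `(S₁ + S₃)(S₂ + S₃) D = 0`, at the origin. -/
theorem base0 (E : ℤ → ℤ → ℤ → ℤ → ℂ)
    (R1 : ∀ x y z w, E (x+1) y z w + E x (y+1) z w + E x y (z+1) w + E x y z (w+1) = 0)
    (R2 : ∀ x y z w, E (x-1) y z w + E x (y-1) z w + E x y (z-1) w + E x y z (w-1) = 0)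
    (R3 : ∀ x y z w, (E x (y+1) z (w-1) - E x (y+1) (z-1) w
      - E (x+1) y z (w-1) + E (x+1) y (z-1) w)
      - (E x (y-1) z (w+1) - E x (y-1) (z+1) w
      - E (x-1) y z (w+1) + E (x-1) y (z+1) w) = 0) :
    E 1 1 0 0 + E 1 0 1 0 + E 0 1 1 0 + E 0 0 2 0 = 0 := by
  have h1 := R1 (-1) 1 1 0
  have h2 := R1 0 0 1 0
  have h3 := R1 0 1 1 (-1)
  have h4 := R2 0 1 2 0
  have h5 := R2 0 2 1 0
  have h6 := R2 1 1 1 0
  have h7 := R3 0 1 1 0
  norm_num only at h1 h2 h3 h4 h5 h6 h7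
  linear_combination (-1/4 : ℂ) * h1 + (1/4 : ℂ) * h2 + (-1/2 : ℂ) * h3 + (1/2 : ℂ) * h4
    + (1/4 : ℂ) * h5 + (3/4 : ℂ) * h6 + (1/4 : ℂ) * h7

theorem base (D : ℤ → ℤ → ℤ → ℤ → ℂ)
    (R1 : ∀ a b c d, D (a+1) b c d + D a (b+1) c d + D a b (c+1) d + D a b c (d+1) = 0)
    (R2 : ∀ a b c d, D (a-1) b c d + D a (b-1) c d + D a b (c-1) d + D a b c (d-1) = 0)
    (R3 : ∀ a b c d, (D a (b+1) c (d-1) - D a (b+1) (c-1) d
      - D (a+1) b c (d-1) + D (a+1) b (c-1) d)
      - (D a (b-1) c (d+1) - D a (b-1) (c+1) d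
      - D (a-1) b c (d+1) + D (a-1) b (c+1) d) = 0) (a b c d : ℤ) :
    D (a+1) (b+1) c d + D (a+1) b (c+1) d + D a (b+1) (c+1) d + D a b (c+2) d = 0 := by
  have h := base0 (fun x y z w => D (a+x) (b+y) (c+z) (d+w))
    (fun x y z w => by simpa only [add_assoc] using R1 (a+x) (b+y) (c+z) (d+w))
    (fun x y z w => by simpa only [add_sub_assoc] using R2 (a+x) (b+y) (c+z) (d+w))
    (fun x y z w => by
      simpa only [add_assoc, add_sub_assoc] using R3 (a+x) (b+y) (c+z) (d+w))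
  simpa using h

theorem scal2 (D : ℤ → ℤ → ℤ → ℤ → ℂ)
    (s1 : ∀ a b c d, D a b c d = D b a c d) (s2 : ∀ a b c d, D a b c d = D a c b d)
    (s3 : ∀ a b c d, D a b c d = D a b d c)
    (R1 : ∀ a b c d, D (a+1) b c d + D a (b+1) c d + D a b (c+1) d + D a b c (d+1) = 0)
    (R2 : ∀ a b c d, D (a-1) b c d + D a (b-1) c d + D a b (c-1) d + D a b c (d-1) = 0)
    (R3 : ∀ a b c d, (D a (b+1) c (d-1) - D a (b+1) (c-1) d
      - D (a+1) b c (d-1) + D (a+1) b (c-1) d)
      - (D a (b-1) c (d+1) - D a (b-1) (c+1) d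
      - D (a-1) b c (d+1) + D (a-1) b (c+1) d) = 0) :
    ∀ a b c d, D (a+2) b c d = D a (b+2) c d := by
  have hb := base D R1 R2 R3
  -- `S₁² D = S₂² D`
  have key : ∀ a b c d, D (a+2) b c d = D a (b+2) c d := by
    intro a b c d
    -- (S₂+S₁)(S₃+S₁) D = 0 and (S₁+S₂)(S₃+S₂) D = 0
    have h1 := hb b c a d
    have h2 := hb a c b d
    -- h1 : D (b+1) (c+1) a d + D (b+1) c (a+1) d + D b (c+1) (a+1) d + D b c (a+2) d = 0
    -- h2 : D (a+1) (c+1) b d + D (a+1) c (b+1) d + D a (c+1) (b+1) d + D a c (b+2) d = 0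
    have e1 : D (b+1) (c+1) a d = D a (c+1) (b+1) d := by
      rw [s1 (b+1) (c+1) a d, s2 (c+1) (b+1) a d, s1 (c+1) a (b+1) d]
    have e2 : D (b+1) c (a+1) d = D (a+1) c (b+1) d := by
      rw [s1 (b+1) c (a+1) d, s2 c (b+1) (a+1) d, s1 c (a+1) (b+1) d]
    have e3 : D b (c+1) (a+1) d = D (a+1) (c+1) b d := by
      rw [s1 b (c+1) (a+1) d, s2 (c+1) b (a+1) d, s1 (c+1) (a+1) b d]
    have e4 : D b c (a+2) d = D (a+2) b c d := by
      rw [s2 b c (a+2) d, s1 b (a+2) c d]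
    have e5 : D a c (b+2) d = D a (b+2) c d := s2 a c (b+2) d
    rw [e1, e2, e3, e4] at h1
    rw [e5] at h2
    linear_combination h1 - h2
  exact key

theorem al2' : SAl2 := by
  intro D s1 s2 s3 R1 R2 R3 a b c d
  have hmem : D (a+2) b c d - D a (b+2) c d ∈ nullSub := by
    rw [← Submodule.Quotient.mk_eq_zero nullSub, ← Module.forall_dual_apply_eq_zero_iff ℂ]
    intro φ
    have hφ : ∀ s : ℕ → ℂ, Null s → φ (Submodule.Quotient.mk (p := nullSub) s) = 0 := by
      intro s hs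
      rw [(Submodule.Quotient.mk_eq_zero nullSub).2 (show s ∈ nullSub from hs), map_zero]
    have h := scal2 (fun a b c d => φ (Submodule.Quotient.mk (p := nullSub) (D a b c d)))
      (fun a b c d => by simp only [s1 a b c d]) (fun a b c d => by simp only [s2 a b c d])
      (fun a b c d => by simp only [s3 a b c d])
      (fun a b c d => by
        rw [← map_add, ← map_add, ← map_add, ← Submodule.Quotient.mk_add,
          ← Submodule.Quotient.mk_add, ← Submodule.Quotient.mk_add]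
        exact hφ _ (R1 a b c d))
      (fun a b c d => by
        rw [← map_add, ← map_add, ← map_add, ← Submodule.Quotient.mk_add,
          ← Submodule.Quotient.mk_add, ← Submodule.Quotient.mk_add]
        exact hφ _ (R2 a b c d))
      (fun a b c d => by
        simp only [← map_add, ← map_sub, ← Submodule.Quotient.mk_add,
          ← Submodule.Quotient.mk_sub]
        exact hφ _ (R3 a b c d)) a b c d
    rw [Submodule.Quotient.mk_sub, map_sub]
    exact sub_eq_zero.2 h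
  exact hmem

end Pool.Agent.W745.RW.AlB
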