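import Pool.Agent.W745.RW.Stm

set_option autoImplicit false
open MeasureTheory Filter Topology Complex

namespace Pool.Agent.W745.RW

/-- second form of the algebra -/
def SAl2 : Prop := ∀ D : ℤ → ℤ → ℤ → ℤ → ℕ → ℂ,
  (∀ a b c d, D a b c d = D b a c d) → (∀ a b c d, D a b c d = D a c b d) →
  (∀ a b c d, D a b c d = D a b d c) →
  (∀ a b c d, Null (fun n => D (a+1) b c d n + D a (b+1) c d n + D a b (c+1) d n + D a b c (d+1) n)) →
  (∀ a b c d, Null (fun n => D (a-1) b c d n + D a (b-1) c d n + D a b (c-1) d n + D a b c (d-1) n)) →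
  (∀ a b c d, Null (fun n => (D a (b+1) c (d-1) n - D a (b+1) (c-1) d n
      - D (a+1) b c (d-1) n + D (a+1) b (c-1) d n)
    - (D a (b-1) c (d+1) n - D a (b-1) (c+1) d n
      - D (a-1) b c (d+1) n + D (a-1) b (c+1) d n))) →
  ∀ a b c d : ℤ, Null (fun n => D (a+2) b c d n - D a (b+2) c d n)

section abs
variable {V : Type*} [AddCommGroup V] [Module ℂ V]

theorem shift2 (D : ℤ → ℤ → ℤ → ℤ → V)
    (h2 : ∀ a b c d, D (a+2) b c d = D a (b+2) c d) (j : ℤ) :
    ∀ a b c d, D (a + 2*j) b c d = D a (b + 2*j) c d := by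
  induction j using Int.induction_on with
  | zero => intro a b c d; simp
  | succ i ih =>
    intro a b c d
    have e1 : a + 2 * ((i:ℤ) + 1) = (a + 2) + 2 * i := by ring
    have e2 : b + 2 * ((i:ℤ) + 1) = (b + 2 * i) + 2 := by ring
    rw [e1, ih, h2, e2]
  | pred i ih =>
    intro a b c d
    have e1 : a + 2 * (-(i:ℤ) - 1) = (a - 2) + 2 * (-(i:ℤ)) := by ring
    have e2 : b + 2 * (-(i:ℤ)) = (b + 2 * (-(i:ℤ) - 1)) + 2 := by ring
    rw [e1, ih, e2, ← h2]
    congr 1; ring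

/-- the sign factor -/
noncomputable def eps (a b c d : ℤ) : ℂ :=
  if a % 2 = b % 2 ∧ b % 2 = c % 2 ∧ c % 2 = d % 2 then 1 else -(1/3)

theorem abs2 (D : ℤ → ℤ → ℤ → ℤ → V)
    (h12 : ∀ a b c d, D a b c d = D b a c d) (h23 : ∀ a b c d, D a b c d = D a c b d)
    (h34 : ∀ a b c d, D a b c d = D a b d c)
    (hT : ∀ a b c d, D (a+1) b c d + D a (b+1) c d + D a b (c+1) d + D a b c (d+1) = 0)
    (h2 : ∀ a b c d, D (a+2) b c d = D a (b+2) c d)
    (a b c d : ℤ) (hs : a + b + c + d = 0) : D a b c d = eps a b c d • D 0 0 0 0 := by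
  have s2 := shift2 D h2
  -- moves
  have m12 : ∀ j a b c d, D (a + 2*j) b c d = D a (b + 2*j) c d := fun j a b c d => s2 j a b c d
  have m23 : ∀ j a b c d, D a (b + 2*j) c d = D a b (c + 2*j) d := by
    intro j a b c d
    rw [h12 a (b+2*j), h23 (b+2*j), m12, h23, h12]
  have m34 : ∀ j a b c d, D a b (c + 2*j) d = D a b c (d + 2*j) := by
    intro j a b c d
    rw [h23 a b, h34 a (c+2*j), m23, h34, h23 a c]
  have key : D a b c d = D (a%2) (b%2) (c%2) (-(a%2+b%2+c%2)) := by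
    have ea : a = a%2 + 2*(a/2) := by omega
    have eb : b + 2*(a/2) = b%2 + 2*(b/2+a/2) := by omega
    have ec : c + 2*(b/2+a/2) = c%2 + 2*(c/2+b/2+a/2) := by omega
    conv_lhs => rw [ea]
    rw [m12, eb, m23, ec, m34]
    congr 1; omega
  have t1 : D 1 0 0 (-1) + D 0 1 0 (-1) + D 0 0 1 (-1) + D 0 0 0 0 = 0 := by
    have := hT 0 0 0 (-1); simpa using this
  have p1 : D 0 1 0 (-1) = D 1 0 0 (-1) := h12 _ _ _ _
  have p2 : D 0 0 1 (-1) = D 1 0 0 (-1) := by rw [h23, p1]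
  have q1 : D 1 0 0 (-1) = (-(1/3) : ℂ) • D 0 0 0 0 := by
    rw [p1, p2] at t1
    have h3 : (3:ℂ) • D 1 0 0 (-1) = - D 0 0 0 0 := by
      have : (3:ℂ) • D 1 0 0 (-1) = D 1 0 0 (-1) + D 1 0 0 (-1) + D 1 0 0 (-1) := by
        rw [show (3:ℂ) = 1 + 1 + 1 by norm_num, add_smul, add_smul, one_smul]
      rw [this]; exact eq_neg_of_add_eq_zero_left t1
    calc D 1 0 0 (-1) = (1/3 : ℂ) • ((3:ℂ) • D 1 0 0 (-1)) := by rw [smul_smul]; norm_num
      _ = _ := by rw [h3, smul_neg, neg_smul]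
  have q010 : D 0 1 0 (-1) = (-(1/3) : ℂ) • D 0 0 0 0 := by rw [p1, q1]
  have q001 : D 0 0 1 (-1) = (-(1/3) : ℂ) • D 0 0 0 0 := by rw [p2, q1]
  have q110 : D 1 1 0 (-2) = (-(1/3) : ℂ) • D 0 0 0 0 := by
    have e1 := m23 1 1 (-1) 0 (-2)
    have e2 := m34 1 1 (-1) 0 (-2)
    norm_num at e1 e2
    rw [e1, e2, h23, h34, q1]
  have q101 : D 1 0 1 (-2) = (-(1/3) : ℂ) • D 0 0 0 0 := by
    have e2 := m34 1 1 0 (-1) (-2)
    norm_num at e2
    rw [e2, h34, q1]
  have q011 : D 0 1 1 (-2) = (-(1/3) : ℂ) • D 0 0 0 0 := by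
    have e2 := m34 1 0 1 (-1) (-2)
    norm_num at e2
    rw [e2, h34, q010]
  have q111 : D 1 1 1 (-3) = D 0 0 0 0 := by
    have t2 : D 1 1 1 (-3) + D 0 2 1 (-3) + D 0 1 2 (-3) + D 0 1 1 (-2) = 0 := by
      have := hT 0 1 1 (-3); norm_num at this; exact this
    have f1 : D 0 2 1 (-3) = D 0 0 1 (-1) := by
      have e1 := m23 1 0 0 1 (-3)
      have e2 := m34 1 0 0 1 (-3)
      norm_num at e1 e2
      rw [e1, e2]
    have f2 : D 0 1 2 (-3) = D 0 1 0 (-1) := by
      have e2 := m34 1 0 1 0 (-3)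
      norm_num at e2
      rw [e2]
    rw [f1, f2, q001, q010, q011] at t2
    have : D 1 1 1 (-3) = -((-(1/3) : ℂ) • D 0 0 0 0 + (-(1/3) : ℂ) • D 0 0 0 0
        + (-(1/3) : ℂ) • D 0 0 0 0) := by
      apply eq_neg_of_add_eq_zero_left
      rw [← t2]; abel
    rw [this, ← add_smul, ← add_smul, ← neg_smul]; norm_num
  rw [key]
  rcases Int.emod_two_eq_zero_or_one a with ha | ha <;>
  rcases Int.emod_two_eq_zero_or_one b with hb | hb <;>
  rcases Int.emod_two_eq_zero_or_one c with hc | hc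
  · have hd : d % 2 = 0 := by omega
    simp [eps, ha, hb, hc, hd]
  · have hd : d % 2 = 1 := by omega
    simp only [eps, ha, hb, hc, hd]; norm_num; rw [q001, neg_smul]
  · have hd : d % 2 = 1 := by omega
    simp only [eps, ha, hb, hc, hd]; norm_num; rw [q010, neg_smul]
  · have hd : d % 2 = 0 := by omega
    simp only [eps, ha, hb, hc, hd]; norm_num; rw [q011, neg_smul]
  · have hd : d % 2 = 1 := by omega
    simp only [eps, ha, hb, hc, hd]; norm_num; rw [q1, neg_smul]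
  · have hd : d % 2 = 0 := by omega
    simp only [eps, ha, hb, hc, hd]; norm_num; rw [q101, neg_smul]
  · have hd : d % 2 = 0 := by omega
    simp only [eps, ha, hb, hc, hd]; norm_num; rw [q110, neg_smul]
  · have hd : d % 2 = 1 := by omega
    simp only [eps, ha, hb, hc, hd]; norm_num; rw [q111]
end abs

/-- null sequences -/
def nullSub : Submodule ℂ (ℕ → ℂ) where
  carrier := {s | Tendsto s atTop (𝓝 0)}
  add_mem' := by
    intro a b ha hb
    show Tendsto (fun x => a x + b x) atTop (𝓝 0)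
    simpa using Filter.Tendsto.add ha hb
  zero_mem' := tendsto_const_nhds
  smul_mem' := by
    intro c a ha
    show Tendsto (fun x => c * a x) atTop (𝓝 0)
    simpa using Filter.Tendsto.const_mul c ha

/-- all sum-zero values are determined by `D 0 0 0 0` -/
theorem al2 (hA : SAl2) (D : ℤ → ℤ → ℤ → ℤ → ℕ → ℂ)
    (h12 : ∀ a b c d, D a b c d = D b a c d) (h23 : ∀ a b c d, D a b c d = D a c b d)
    (h34 : ∀ a b c d, D a b c d = D a b d c)
    (hT : ∀ a b c d, Null (fun n => D (a+1) b c d n + D a (b+1) c d n + D a b (c+1) d n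
      + D a b c (d+1) n))
    (hT' : ∀ a b c d, Null (fun n => D (a-1) b c d n + D a (b-1) c d n + D a b (c-1) d n
      + D a b c (d-1) n))
    (hX : ∀ a b c d, Null (fun n => (D a (b+1) c (d-1) n - D a (b+1) (c-1) d n
      - D (a+1) b c (d-1) n + D (a+1) b (c-1) d n)
    - (D a (b-1) c (d+1) n - D a (b-1) (c+1) d n
      - D (a-1) b c (d+1) n + D (a-1) b (c+1) d n)))
    (a b c d : ℤ) (hs : a + b + c + d = 0) :
    Null (fun n => D a b c d n - eps a b c d * D 0 0 0 0 n) := by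
  have h2 := hA D h12 h23 h34 hT hT' hX
  let q : (ℕ → ℂ) →ₗ[ℂ] ((ℕ → ℂ) ⧸ nullSub) := nullSub.mkQ
  have key := abs2 (fun a b c d => q (D a b c d)) (fun a b c d => by simp only [h12 a b c d])
    (fun a b c d => by simp only [h23 a b c d]) (fun a b c d => by simp only [h34 a b c d])
    (fun a b c d => by
      show q (D (a+1) b c d) + q (D a (b+1) c d) + q (D a b (c+1) d) + q (D a b c (d+1)) = 0
      rw [← map_add, ← map_add, ← map_add]
      exact (Submodule.Quotient.mk_eq_zero nullSub).2 (hT a b c d))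
    (fun a b c d => by
      show q (D (a+2) b c d) = q (D a (b+2) c d)
      exact (Submodule.Quotient.eq nullSub).2 (h2 a b c d)) a b c d hs
  have key' : q (D a b c d) = q (eps a b c d • D 0 0 0 0) := by
    rw [map_smul]; exact key
  exact (Submodule.Quotient.eq nullSub).1 key'

end Pool.Agent.W745.RW
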