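import Pool.Agent.W745.RW.Stm

set_option autoImplicit false
open MeasureTheory Filter Topology Complex
open scoped ContDiff Manifold

namespace Pool.Agent.W745.RW

/-- partition of unity: a test function on `Ω` is a finite sum of test functions on balls -/
theorem decomp (Ω : Set ℂ) (hΩ : IsOpen Ω) (φ : ℂ → ℝ) (hφ : TF Ω φ) :
    ∃ (ι : Type) (_ : Fintype ι) (c : ι → ℂ) (r : ι → ℝ) (ψ : ι → ℂ → ℝ),
      (∀ i, Metric.ball (c i) (r i) ⊆ Ω) ∧ (∀ i, TF (Metric.ball (c i) (r i)) (ψ i)) ∧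
      ∀ z, φ z = ∑ i, ψ i z := by
  obtain ⟨hs, hc, ht⟩ := hφ
  have hK : IsCompact (tsupport φ) := hc
  choose! r hr using fun z (hz : z ∈ Ω) => Metric.isOpen_iff.1 hΩ z hz
  have hcov : tsupport φ ⊆ ⋃ z : tsupport φ, Metric.ball (z : ℂ) (r z) := by
    intro z hz
    exact Set.mem_iUnion.2 ⟨⟨z, hz⟩, Metric.mem_ball_self (hr z (ht hz)).1⟩
  obtain ⟨t, htt⟩ := hK.elim_finite_subcover (fun z : tsupport φ => Metric.ball (z : ℂ) (r z))
    (fun _ => Metric.isOpen_ball) hcov
  let ι := {x // x ∈ t}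
  have hcov' : tsupport φ ⊆ ⋃ i : ι, Metric.ball ((i : tsupport φ) : ℂ) (r (i : tsupport φ)) := by
    intro z hz
    have := htt hz
    simp only [Set.mem_iUnion] at this ⊢
    obtain ⟨i, hi, hzi⟩ := this
    exact ⟨⟨i, hi⟩, hzi⟩
  obtain ⟨f, hf⟩ := SmoothPartitionOfUnity.exists_isSubordinate (I := 𝓘(ℝ, ℂ)) (M := ℂ)
    (isClosed_tsupport φ) (fun i : ι => Metric.ball ((i : tsupport φ) : ℂ) (r (i : tsupport φ)))
    (fun _ => Metric.isOpen_ball) hcov'
  refine ⟨Fin t.card, inferInstance, fun i => ((t.equivFin.symm i : ι) : tsupport φ),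
    fun i => r ((t.equivFin.symm i : ι) : tsupport φ),
    fun i z => f (t.equivFin.symm i) z * φ z, ?_, ?_, ?_⟩
  · intro i
    exact (hr _ (ht ((t.equivFin.symm i : ι) : tsupport φ).2)).2
  · intro i
    refine ⟨?_, ?_, ?_⟩
    · exact ((f (t.equivFin.symm i)).contMDiff.contDiff).mul hs
    · exact hc.mul_left
    · refine (closure_mono ?_).trans (hf (t.equivFin.symm i))
      intro z hz
      simp only [Function.mem_support] at hz ⊢
      exact left_ne_zero_of_mul hz
  · intro z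
    rw [← Finset.sum_mul]
    by_cases hz : φ z = 0
    · simp [hz]
    · have hzs : z ∈ tsupport φ := subset_tsupport _ hz
      have h1 := f.sum_eq_one hzs
      rw [finsum_eq_sum_of_fintype] at h1
      have h2 : ∑ i : Fin t.card, f (t.equivFin.symm i) z = ∑ i : ι, f i z :=
        Equiv.sum_comp t.equivFin.symm (fun i : ι => f i z)
      rw [h2, h1, one_mul]

end Pool.Agent.W745.RW
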