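import Pool.Agent.W745.RW.Mom
import Pool.Agent.W745.RW.PU

set_option autoImplicit false
open MeasureTheory Filter Topology Complex
open scoped ContDiff

namespace Pool.Agent.W745.RW

theorem TF.mono {B B' : Set ℂ} (hB : B' ⊆ B) {φ : ℂ → ℝ} (hφ : TF B' φ) : TF B φ :=
  ⟨hφ.1, hφ.2.1, hφ.2.2.trans hB⟩

theorem Sol.mono {B B' : Set ℂ} (hB : B' ⊆ B) {h : ℝ} {u : ℂ → ℝ} (hS : Sol B h u) : Sol B' h u :=
  ⟨hS.hpos, hS.smooth.mono hB, fun z hz => hS.eq z (hB hz)⟩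

theorem Sys.mono {B B' : Set ℂ} (hB : B' ⊆ B) {h : ℕ → ℝ} {u : ℕ → ℂ → ℝ} (hS : Sys B h u) :
    Sys B' h u :=
  ⟨fun n => (hS.sol n).mono hB, hS.hlim, fun φ hφ k => hS.qe φ (hφ.mono hB) k⟩

theorem Bd.mono {B B' : Set ℂ} (hB : B' ⊆ B) {h : ℕ → ℝ} {u : ℕ → ℂ → ℝ} (hS : Bd B h u) :
    Bd B' h u := fun k K hK hKB => hS k K hK (hKB.trans hB)

theorem TF.integrable {B : Set ℂ} (hB : IsOpen B) {φ : ℂ → ℝ} (hφ : TF B φ) {g : ℂ → ℂ}
    (hg : ContinuousOn g B) : Integrable (fun z => (φ z : ℂ) * g z) := by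
  have hc : HasCompactSupport (fun z => (φ z : ℂ) * g z) := by
    have h1 : HasCompactSupport (fun z => (φ z : ℂ)) :=
      hφ.2.1.comp_left (g := fun x : ℝ => (x : ℂ)) (by simp)
    exact h1.mul_right
  refine Continuous.integrable_of_hasCompactSupport ?_ hc
  rw [continuous_iff_continuousAt]
  intro z
  by_cases hz : z ∈ B
  · exact (continuous_ofReal.comp hφ.1.continuous).continuousAt.mul (hg.continuousAt (hB.mem_nhds hz))
  · have hz' : z ∉ tsupport φ := fun h => hz (hφ.2.2 h)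
    have h0 : φ =ᶠ[𝓝 z] 0 := notMem_tsupport_iff_eventuallyEq.1 hz'
    have h1 : (fun z => (φ z : ℂ) * g z) =ᶠ[𝓝 z] fun _ => 0 := by
      filter_upwards [h0] with w hw
      simp [hw]
    exact (continuousAt_const).congr h1.symm

/-- all fourth order moments of total order zero, on an open set -/
theorem momOpen (hW : SW) (hT : ST) (hX : SX) (hA : SAl2) (Ω : Set ℂ) (hΩ : IsOpen Ω)
    (h : ℕ → ℝ) (u : ℕ → ℂ → ℝ)
    (hS : Sys Ω h u) (hB : Bd Ω h u) (φ : ℂ → ℝ)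
    (hφ : TF Ω φ) (a b c d : ℤ) (hs : a + b + c + d = 0) :
    Tendsto (fun n => MM φ h u a b c d n - eps a b c d * MM φ h u 0 0 0 0 n) atTop
      (𝓝 ((GG a b c d - 3 * eps a b c d) * (∫ z, φ z : ℝ))) := by
  obtain ⟨ι, _, ce, ra, ψ, hb, hψ, hsum⟩ := decomp Ω hΩ φ hφ
  have hcont : ∀ n (k : ℤ), ContinuousOn (W (h n) (u n) k) Ω := fun n k =>
    ((hW Ω hΩ (h n) (u n) (hS.sol n)).1 k).continuousOn
  have hMM : ∀ (a b c d : ℤ) n, MM φ h u a b c d n = ∑ i, MM (ψ i) h u a b c d n := by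
    intro a b c d n
    unfold MM
    rw [← integral_finsetSum]
    · congr 1; ext z
      rw [hsum z, ← Finset.sum_mul]; push_cast; rfl
    · intro i _
      exact ((hψ i).mono (hb i)).integrable hΩ
        ((((hcont n a).mul (hcont n b)).mul (hcont n c)).mul (hcont n d))
  have hI : (∫ z, φ z) = ∑ i, ∫ z, ψ i z := by
    rw [← integral_finsetSum]
    · congr 1; ext z; exact hsum z
    · intro i _
      exact (hψ i).1.continuous.integrable_of_hasCompactSupport (hψ i).2.1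
  have key : Tendsto (fun n => ∑ i, (MM (ψ i) h u a b c d n - eps a b c d * MM (ψ i) h u 0 0 0 0 n))
      atTop (𝓝 (∑ i, (GG a b c d - 3 * eps a b c d) * (∫ z, ψ i z : ℝ))) := by
    apply tendsto_finsetSum
    intro i _
    exact momBall hT hX hA (ce i) (ra i) h u (hS.mono (hb i)) (hB.mono (hb i)) (ψ i) (hψ i)
      a b c d hs
  rw [← Finset.mul_sum] at key
  rw [hI]; push_cast
  refine key.congr (fun n => ?_)
  rw [hMM a b c d n, hMM 0 0 0 0 n, Finset.mul_sum, Finset.sum_sub_distrib]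

end Pool.Agent.W745.RW
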