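import Pool.Agent.W745.RW.Fin
import Pool.Agent.W745.RW.AlB

set_option autoImplicit false
open MeasureTheory Filter Topology Complex
open scoped ContDiff

namespace Pool.Agent.W745.RW

/-- the raw hypotheses give a `Sys` -/
theorem sys_of_raw (Ω : Set ℂ) (lam : ℕ → ℝ) (u : ℕ → ℂ → ℝ)
    (hpos : ∀ n, 0 < lam n) (hlam : Tendsto lam atTop atTop)
    (hu : ∀ n, ContDiffOn ℝ ∞ (u n) Ω)
    (heq : ∀ n, ∀ z ∈ Ω, lap (u n) z + lam n * u n z = 0)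
    (hqe : ∀ φ, TF Ω φ → ∀ k : ℕ, Tendsto (fun n => ∫ z, (φ z : ℂ) *
      ((u n z : ℂ) * (Dp (1 / √(lam n)))^[k] (fun w => (u n w : ℂ)) z)) atTop
      (𝓝 (if k = 0 then ((∫ z, φ z : ℝ) : ℂ) else 0))) :
    Sys Ω (fun n => 1 / √(lam n)) u := by
  refine ⟨fun n => ⟨?_, hu n, ?_⟩, ?_, fun φ hφ k => ?_⟩
  · exact div_pos one_pos (Real.sqrt_pos.2 (hpos n))
  · intro z hz
    have h1 := heq n z hz
    have h2 : (1 / √(lam n)) ^ 2 = 1 / lam n := by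
      rw [div_pow, Real.sq_sqrt (hpos n).le, one_pow]
    show (1 / √(lam n)) ^ 2 * lap (u n) z + u n z = 0
    rw [h2]
    have h3 := (hpos n).ne'
    field_simp
    linarith
  · have : Tendsto (fun n => √(lam n)) atTop atTop := Real.tendsto_sqrt_atTop.comp hlam
    exact (this.inv_tendsto_atTop).congr (fun n => by simp [one_div])
  · exact hqe φ hφ k

theorem Dp0 (h : ℝ) (u : ℂ → ℝ) (z : ℂ) : W h u 0 z = (u z : ℂ) := rfl

theorem W1 (h : ℝ) (u : ℂ → ℝ) (z : ℂ) : W h u 1 z = Dp h (fun w => (u w : ℂ)) z := rfl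

theorem W1_norm (B : Set ℂ) (hB : IsOpen B) (h : ℝ) (u : ℂ → ℝ) (hS : Sol B h u) (z : ℂ)
    (hz : z ∈ B) : ‖W h u 1 z‖ ^ 2 = h ^ 2 * (dx u z ^ 2 + dy u z ^ 2) := by
  have hd : DifferentiableAt ℝ u z :=
    (hS.smooth.contDiffAt (hB.mem_nhds hz)).differentiableAt (by simp)
  have e : ∀ v : ℂ, fderiv ℝ (fun w => (u w : ℂ)) z v = ((fderiv ℝ u z v : ℝ) : ℂ) := by
    intro v
    have h1 : HasFDerivAt (fun w => (u w : ℂ)) (ofRealCLM.comp (fderiv ℝ u z)) z :=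
      ofRealCLM.hasFDerivAt.comp z hd.hasFDerivAt
    rw [h1.fderiv]; rfl
  rw [W1]
  unfold Dp dx dy
  rw [e, e, norm_mul, mul_pow, ← Complex.normSq_eq_norm_sq, ← Complex.normSq_eq_norm_sq,
    Complex.normSq_ofReal, Complex.normSq_apply]
  simp
  ring

/-- the identity for `u⁴ - λ⁻²|∇u|⁴` -/
theorem quartic (hW : SW) (hT : ST) (hX : SX) (hA : SAl2) (Ω : Set ℂ) (hΩ : IsOpen Ω)
    (h : ℕ → ℝ) (u : ℕ → ℂ → ℝ)
    (hS : Sys Ω h u) (hB : Bd Ω h u) (φ : ℂ → ℝ) (hφ : TF Ω φ) :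
    Tendsto (fun n => ∫ z, φ z * (u n z ^ 4 - (h n ^ 2 * (dx (u n) z ^ 2 + dy (u n) z ^ 2)) ^ 2))
      atTop (𝓝 (∫ z, φ z)) := by
  have key := momOpen hW hT hX hA Ω hΩ h u hS hB φ hφ 1 1 (-1) (-1) (by norm_num)
  have hG : GG 1 1 (-1) (-1) = 2 := by
    simp [GG, CC]; norm_num
  have he : eps 1 1 (-1) (-1) = 1 := by
    simp [eps]
  rw [hG, he] at key
  have k2 : Tendsto (fun n => (-(MM φ h u 1 1 (-1) (-1) n - 1 * MM φ h u 0 0 0 0 n)).re) atTop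
      (𝓝 (-((2 - 3 * 1 : ℂ) * ((∫ z, φ z : ℝ) : ℂ))).re) :=
    (continuous_re.tendsto _).comp key.neg
  have k3 : (-((2 - 3 * 1 : ℂ) * ((∫ z, φ z : ℝ) : ℂ))).re = ∫ z, φ z := by
    rw [show (-((2 - 3 * 1 : ℂ) * ((∫ z, φ z : ℝ) : ℂ))) = ((∫ z, φ z : ℝ) : ℂ) by ring,
      ofReal_re]
  rw [k3] at k2
  refine k2.congr (fun n => ?_)
  have hcont : ∀ (k : ℤ), ContinuousOn (W (h n) (u n) k) Ω := fun k =>
    ((hW Ω hΩ (h n) (u n) (hS.sol n)).1 k).continuousOn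
  have i1 : MM φ h u 1 1 (-1) (-1) n =
      ∫ z, (φ z : ℂ) * ((((h n ^ 2 * (dx (u n) z ^ 2 + dy (u n) z ^ 2)) ^ 2 : ℝ)) : ℂ) := by
    unfold MM
    congr 1; ext z
    by_cases hz : z ∈ Ω
    · congr 1
      have hc := (hW Ω hΩ (h n) (u n) (hS.sol n)).2.2.2 1 z hz
      have hn := W1_norm Ω hΩ (h n) (u n) (hS.sol n) z hz
      have hm : W (h n) (u n) (-1) z = -(starRingEnd ℂ) (W (h n) (u n) 1 z) := by
        rw [hc]; simp
      rw [hm, ← hn]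
      have hmul := Complex.mul_conj (W (h n) (u n) 1 z)
      rw [Complex.normSq_eq_norm_sq] at hmul
      push_cast
      rw [show W (h n) (u n) 1 z * W (h n) (u n) 1 z * -(starRingEnd ℂ) (W (h n) (u n) 1 z) *
        -(starRingEnd ℂ) (W (h n) (u n) 1 z) = (W (h n) (u n) 1 z * (starRingEnd ℂ)
        (W (h n) (u n) 1 z)) ^ 2 by ring, hmul]
      push_cast; ring
    · have : φ z = 0 := by
        by_contra h0
        exact hz (hφ.2.2 (subset_tsupport _ h0))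
      simp [this]
  have i0 : MM φ h u 0 0 0 0 n = ∫ z, (φ z : ℂ) * (((u n z ^ 4 : ℝ)) : ℂ) := by
    unfold MM
    congr 1; ext z
    simp only [Dp0]; push_cast; ring
  have hint1 : Integrable (fun z => (φ z : ℂ) * ((((h n ^ 2 * (dx (u n) z ^ 2 + dy (u n) z ^ 2)) ^ 2 : ℝ)) : ℂ)) := by
    have hc2 : ContinuousOn (fun z => (((‖W (h n) (u n) 1 z‖ ^ 2) ^ 2 : ℝ) : ℂ)) Ω :=
      continuous_ofReal.comp_continuousOn (((hcont 1).norm.pow 2).pow 2)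
    refine (hφ.integrable hΩ hc2).congr (Filter.Eventually.of_forall fun z => ?_)
    by_cases hz : z ∈ Ω
    · show _ = _
      simp only
      rw [W1_norm Ω hΩ (h n) (u n) (hS.sol n) z hz]
    · have : φ z = 0 := by
        by_contra h0
        exact hz (hφ.2.2 (subset_tsupport _ h0))
      simp [this]
  have hint0 : Integrable (fun z => (φ z : ℂ) * (((u n z ^ 4 : ℝ)) : ℂ)) :=
    hφ.integrable hΩ (continuous_ofReal.comp_continuousOn (((hS.sol n).smooth.continuousOn).pow 4))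
  rw [one_mul, neg_sub, i0, i1, ← integral_sub hint0 hint1]
  rw [show (∫ z, ((φ z : ℂ) * (((u n z ^ 4 : ℝ)) : ℂ) - (φ z : ℂ) *
      ((((h n ^ 2 * (dx (u n) z ^ 2 + dy (u n) z ^ 2)) ^ 2 : ℝ)) : ℂ))) =
      ∫ z, ((φ z * (u n z ^ 4 - (h n ^ 2 * (dx (u n) z ^ 2 + dy (u n) z ^ 2)) ^ 2) : ℝ) : ℂ) by
    congr 1; ext z; push_cast; ring]
  rw [integral_complex_ofReal, ofReal_re]

end Pool.Agent.W745.RW
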