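import Pool.Agent.W745.RW.Alg2

set_option autoImplicit false
open MeasureTheory Filter Topology Complex
open scoped ContDiff

namespace Pool.Agent.W745.RW

theorem sgn_succ (a : ℤ) : ((-1 : ℂ)) ^ (a + 1).natAbs = - (-1) ^ a.natAbs := by
  rcases Int.even_or_odd a with h | h
  · have h1 : Odd (a + 1) := h.add_one
    rw [(Int.natAbs_even.2 h).neg_one_pow, (Int.natAbs_odd.2 h1).neg_one_pow]
  · have h1 : Even (a + 1) := h.add_one
    rw [(Int.natAbs_odd.2 h).neg_one_pow, (Int.natAbs_even.2 h1).neg_one_pow]; ring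

theorem CC_symm (a b : ℤ) : CC a b = CC b a := by
  unfold CC
  by_cases h : a + b = 0
  · have : b = -a := by omega
    subst this; simp
  · rw [if_neg h, if_neg (by omega)]

theorem CC_up (a b : ℤ) : CC (a + 1) b = - CC a (b + 1) := by
  unfold CC
  by_cases h : a + b + 1 = 0
  · rw [if_pos (by omega), if_pos (by omega), sgn_succ]
  · rw [if_neg (by omega), if_neg (by omega), neg_zero]

theorem CC_dn (a b : ℤ) : CC (a - 1) b = - CC a (b - 1) := by
  have := CC_up (a - 1) (b - 1)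
  rw [sub_add_cancel, sub_add_cancel] at this
  rw [this, neg_neg]

/-- Gaussian four point constants -/
noncomputable def GG (a b c d : ℤ) : ℂ := CC a b * CC c d + CC a c * CC b d + CC a d * CC b c

theorem GG12 (a b c d : ℤ) : GG a b c d = GG b a c d := by
  unfold GG; rw [CC_symm b a]; ring
theorem GG23 (a b c d : ℤ) : GG a b c d = GG a c b d := by
  unfold GG; rw [CC_symm c b]; ring
theorem GG34 (a b c d : ℤ) : GG a b c d = GG a b d c := by
  unfold GG; rw [CC_symm d c]; ring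

theorem GG_T (a b c d : ℤ) : GG (a+1) b c d + GG a (b+1) c d + GG a b (c+1) d + GG a b c (d+1) = 0 := by
  simp only [GG, CC_up]; ring
theorem GG_T' (a b c d : ℤ) : GG (a-1) b c d + GG a (b-1) c d + GG a b (c-1) d + GG a b c (d-1) = 0 := by
  simp only [GG, CC_dn]; ring

theorem GG_X (a b c d : ℤ) :
    (GG a (b+1) c (d-1) - GG a (b+1) (c-1) d - GG (a+1) b c (d-1) + GG (a+1) b (c-1) d)
    - (GG a (b-1) c (d+1) - GG a (b-1) (c+1) d - GG (a-1) b c (d+1) + GG (a-1) b (c+1) d)
    = (CC a (b+1) - CC (a+1) b) * (CC c (d-1) - CC (c-1) d)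
      - (CC a (b-1) - CC (a-1) b) * (CC c (d+1) - CC (c+1) d) := by
  simp only [GG, CC_up, CC_dn, sub_add_cancel, add_sub_cancel_right]; ring

theorem MM12 (φ : ℂ → ℝ) (h : ℕ → ℝ) (u : ℕ → ℂ → ℝ) (a b c d : ℤ) (n : ℕ) :
    MM φ h u a b c d n = MM φ h u b a c d n := by
  unfold MM; congr 1; ext z; ring
theorem MM23 (φ : ℂ → ℝ) (h : ℕ → ℝ) (u : ℕ → ℂ → ℝ) (a b c d : ℤ) (n : ℕ) :
    MM φ h u a b c d n = MM φ h u a c b d n := by
  unfold MM; congr 1; ext z; ring
theorem MM34 (φ : ℂ → ℝ) (h : ℕ → ℝ) (u : ℕ → ℂ → ℝ) (a b c d : ℤ) (n : ℕ) :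
    MM φ h u a b c d n = MM φ h u a b d c n := by
  unfold MM; congr 1; ext z; ring

/-- all fourth order moments of total order zero, on a ball -/
theorem momBall (hT : ST) (hX : SX) (hA : SAl2) (c₀ : ℂ) (r : ℝ) (h : ℕ → ℝ) (u : ℕ → ℂ → ℝ)
    (hS : Sys (Metric.ball c₀ r) h u) (hB : Bd (Metric.ball c₀ r) h u) (φ : ℂ → ℝ)
    (hφ : TF (Metric.ball c₀ r) φ) (a b c d : ℤ) (hs : a + b + c + d = 0) :
    Tendsto (fun n => MM φ h u a b c d n - eps a b c d * MM φ h u 0 0 0 0 n) atTop
      (𝓝 ((GG a b c d - 3 * eps a b c d) * (∫ z, φ z : ℝ))) := by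
  set J : ℂ := ((∫ z, φ z : ℝ) : ℂ) with hJ
  have key := al2 hA (fun a b c d n => MM φ h u a b c d n - GG a b c d * J)
    (fun a b c d => by ext n; rw [MM12, GG12]) (fun a b c d => by ext n; rw [MM23, GG23])
    (fun a b c d => by ext n; rw [MM34, GG34])
    (fun a b c d => by
      have h1 := (hT _ Metric.isOpen_ball h u hS.sol hS.hlim hB φ hφ a b c d).1
      have h2 := GG_T a b c d
      refine h1.congr (fun n => ?_)
      linear_combination (J) * h2)
    (fun a b c d => by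
      have h1 := (hT _ Metric.isOpen_ball h u hS.sol hS.hlim hB φ hφ a b c d).2
      have h2 := GG_T' a b c d
      refine h1.congr (fun n => ?_)
      linear_combination (J) * h2)
    (fun a b c d => by
      have h1 := hX c₀ r h u hS hB φ hφ a b c d
      have h2 := GG_X a b c d
      rw [← h2] at h1
      have h3 := h1.sub_const (((GG a (b+1) c (d-1) - GG a (b+1) (c-1) d - GG (a+1) b c (d-1)
        + GG (a+1) b (c-1) d) - (GG a (b-1) c (d+1) - GG a (b-1) (c+1) d - GG (a-1) b c (d+1)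
        + GG (a-1) b (c+1) d)) * J)
      rw [sub_self] at h3
      refine h3.congr (fun n => ?_)
      ring)
    a b c d hs
  have h0 : GG 0 0 0 0 = 3 := by simp [GG, CC]; norm_num
  have k2 : Tendsto (fun n => (MM φ h u a b c d n - GG a b c d * J
      - eps a b c d * (MM φ h u 0 0 0 0 n - GG 0 0 0 0 * J)) + (GG a b c d - 3 * eps a b c d) * J)
      atTop (𝓝 (0 + (GG a b c d - 3 * eps a b c d) * J)) := Tendsto.add_const _ key
  rw [zero_add] at k2
  refine k2.congr (fun n => ?_)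
  rw [h0]; ring

end Pool.Agent.W745.RW
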